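import Mathlib

namespace Pool.Agent.Results.MP_903b9e_co.Mob

open Finset Relation

variable {k : ℕ}

/-- The graph distance of the lattice, the `ℓ₁` distance. -/
def d (x y : Fin k → ℤ) : ℤ := ∑ i, |x i - y i|

/-- No vertex of `S` lies on a shortest path between two others. -/
def GP (S : Finset (Fin k → ℤ)) : Prop :=
  ∀ x ∈ S, ∀ y ∈ S, ∀ z ∈ S, x ≠ y → y ≠ z → x ≠ z → d x z ≠ d x y + d y z

/-- A legal move. -/
def Move (S T : Finset (Fin k → ℤ)) : Prop :=
  ∃ u ∈ S, ∃ v ∉ S, d u v = 1 ∧ T = insert v (S.erase u) ∧ GP T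

/-- Mobile general position sets. -/
def Mobile (S : Finset (Fin k → ℤ)) : Prop :=
  GP S ∧ ∃ c : ℕ → Finset (Fin k → ℤ), c 0 = S ∧ (∀ n, Move (c n) (c (n + 1))) ∧ ∀ v, ∃ n, v ∈ c n

lemma btw (x y z : Fin k → ℤ) : d x z = d x y + d y z ↔
    ∀ i, (x i ≤ y i ∧ y i ≤ z i) ∨ (z i ≤ y i ∧ y i ≤ x i) := by
  rw [d, d, d, ← sum_add_distrib, sum_eq_sum_iff_of_le fun i _ => abs_sub_le _ _ _]
  refine forall_congr' fun i => ?_
  simp only [mem_univ, true_imp_iff, Int.abs_eq_natAbs]
  omega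

lemma upper {S : Finset (Fin (k + 1) → ℤ)} (h : GP S) : S.card ≤ 2 ^ 2 ^ k := by
  classical
  let le : (Fin k → Bool) → (Fin (k + 1) → ℤ) → (Fin (k + 1) → ℤ) → Prop := fun s x y =>
    x ≠ y ∧ x 0 ≤ y 0 ∧ ∀ i, if s i then x i.succ ≤ y i.succ else y i.succ ≤ x i.succ
  have key : ∀ x ∈ S, ∀ y ∈ S, x ≠ y → x 0 ≤ y 0 →
      (fun s => ∃ w ∈ S, le s w x) ≠ fun s => ∃ w ∈ S, le s w y := fun x hx y hy hxy h0 e => by
    have l : le (fun i => decide (x i.succ ≤ y i.succ)) x y :=
      ⟨hxy, h0, fun i => by split_ifs with c <;> simp at c <;> omega⟩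
    obtain ⟨w, hw, w1, w2, w3⟩ := (congrFun e _).mpr ⟨x, hx, l⟩
    have b : ∀ i, (w i ≤ x i ∧ x i ≤ y i) ∨ (y i ≤ x i ∧ x i ≤ w i) :=
      Fin.cases (.inl ⟨w2, h0⟩) fun i => by
        have := w3 i
        split_ifs at this with c <;> simp at c <;> omega
    refine h w hw x hx y hy w1 hxy ?_ ((btw _ _ _).2 b)
    rintro rfl
    exact hxy (funext fun i => by have := b i; omega)
  have := card_le_card_of_injOn (s := S) (t := univ) (fun x s => ∃ w ∈ S, le s w x) (by simp)
    fun x hx y hy e => by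
      by_contra c
      rcases le_total (x 0) (y 0) with h0 | h0
      · exact key x hx y hy c h0 e
      · exact key y hy x hx (Ne.symm c) h0 e.symm
  simpa using this

lemma tour {α V : Type} [Countable V] [Nonempty V] (r : α → α → Prop) (m : V → α → Prop)
    (A : α → Prop) (h : ∀ a, A a → ∀ v, ∃ b, A b ∧ TransGen r a b ∧ m v b) {a : α} (ha : A a) :
    ∃ c : ℕ → α, c 0 = a ∧ (∀ n, r (c n) (c (n + 1))) ∧ ∀ v, ∃ n, m v (c n) := by
  classical
  obtain ⟨e, he⟩ := exists_surjective_nat V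
  let P : ℕ → ℕ → α → Prop := fun j n => Nat.rec (fun s => A s ∧ ∀ i < j, True ∧ m (e (j - 1)) s)
    (fun _ ih s => ∃ t, r s t ∧ ih t) n
  have p1 : ∀ j s b, TransGen r s b → P j 0 b → ∃ n, P j (n + 1) s := fun j s b hb h0 => by
    induction hb using TransGen.head_induction_on with
    | single h => exact ⟨0, b, h, h0⟩
    | head h _ ih => exact ih.elim fun n hn => ⟨n + 1, _, h, hn⟩
  have st : ∀ x : {x : ℕ × ℕ × α // P x.1 x.2.1 x.2.2}, ∃ y : {x : ℕ × ℕ × α // P x.1 x.2.1 x.2.2},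
      r x.1.2.2 y.1.2.2 ∧ (x.1.2.1 = 0 → y.1.1 = x.1.1 + 1) ∧
        ∀ n, x.1.2.1 = n + 1 → y.1.1 = x.1.1 ∧ y.1.2.1 = n := by
    rintro ⟨⟨j, _ | n, s⟩, hx⟩
    · obtain ⟨b, b1, b2, b3⟩ := h s hx.1 (e j)
      obtain ⟨n, t, t1, t2⟩ := p1 (j + 1) s b b2 ⟨b1, fun _ _ => ⟨trivial, b3⟩⟩
      exact ⟨⟨(j + 1, n, t), t2⟩, t1, fun _ => rfl, by simp⟩
    · obtain ⟨t, t1, t2⟩ := hx
      exact ⟨⟨(j, n, t), t2⟩, t1, by simp, by simp⟩
  choose f f1 f2 f3 using st
  let x := fun n => f^[n] ⟨(0, 0, a), ha, by simp⟩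
  have x1 : ∀ n, x (n + 1) = f (x n) := fun n => Function.iterate_succ_apply' _ _ _
  have dn : ∀ l n, (x n).1.2.1 = l → ∃ n', (x n').1.1 = (x n).1.1 ∧ (x n').1.2.1 = 0 := fun l => by
    induction l with
    | zero => exact fun n h => ⟨n, rfl, h⟩
    | succ l ih =>
      intro n h
      obtain ⟨n', h1, h2⟩ := ih (n + 1) (x1 n ▸ (f3 _ l h).2)
      exact ⟨n', h1.trans (x1 n ▸ (f3 _ l h).1), h2⟩
  have all : ∀ j, ∃ n, (x n).1.1 = j ∧ (x n).1.2.1 = 0 := fun j => by
    induction j with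
    | zero => exact ⟨0, rfl, rfl⟩
    | succ j ih =>
      obtain ⟨n, h1, h2⟩ := ih
      obtain ⟨n', h3, h4⟩ := dn _ (n + 1) rfl
      exact ⟨n', by rw [h3, x1, f2 _ h2, h1], h4⟩
  refine ⟨fun n => (x n).1.2.2, rfl, fun n => by simpa only [x1] using f1 _, fun v => ?_⟩
  obtain ⟨j, rfl⟩ := he v
  obtain ⟨n, h1, h2⟩ := all (j + 1)
  have := (x n).2
  rw [h1, h2] at this
  exact ⟨n, (this.2 j (by omega)).2⟩

lemma pts (k : ℕ) : ∃ (F : Type) (_ : Fintype F) (p : F → Fin (k + 1) → ℤ),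
    Fintype.card F = 2 ^ 2 ^ k ∧ (∀ f g i, f ≠ g → p f i + 2 ≤ p g i ∨ p g i + 2 ≤ p f i) ∧
    ∀ f g h, f ≠ g → g ≠ h → ¬∀ i, (p f i < p g i ↔ p g i < p h i) := by
  classical
  let e := (Fintype.equivFin (Fin k → Bool)).symm
  let F := Fin (Fintype.card (Fin k → Bool)) → Bool
  let o := (monoEquivOfFin (Lex F) rfl).symm
  let s : Fin (k + 1) → F := Fin.cases (fun _ => false) fun i j => e j i
  let q : F → Fin (k + 1) → Lex F := fun f i => toLex fun j => xor (f j) (s i j)
  have b1 : ∀ a b c : Bool, a ≠ b → (xor a c < xor b c ↔ b ≠ c) := by decide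
  have fd : ∀ f g : F, f ≠ g → ∃ j, f j ≠ g j ∧ ∀ i, (q f i < q g i ↔ g j ≠ s i j) :=
    fun f g hfg => by
      obtain ⟨j, h1, h2⟩ := WellFounded.has_min wellFounded_lt {j | f j ≠ g j}
        (Function.ne_iff.1 hfg)
      refine ⟨j, h1, fun i => ⟨fun ⟨l, l1, l2⟩ => ?_, fun h => ⟨j, fun l hl => ?_, ?_⟩⟩⟩
      · replace l2 : xor (f l) (s i l) < xor (g l) (s i l) := l2
        rcases lt_trichotomy l j with c | rfl | c
        · have : f l = g l := not_not.1 fun h => h2 l h c
          simp [this] at l2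
        · exact (b1 _ _ _ h1).1 l2
        · exact absurd (Bool.xor_left_inj.1 (l1 j c)) h1
      · have : f l = g l := not_not.1 fun h => h2 l h hl
        exact congrArg (xor · (s i l)) this
      · exact (b1 _ _ _ h1).2 h
  refine ⟨F, inferInstance, fun f i => 2 * (o (q f i) : ℕ), by simp [F], fun f g i h => ?_,
    fun f g h h1 h2 h3 => ?_⟩
  · have : o (q f i) ≠ o (q g i) := fun c => h (funext fun j =>
      Bool.xor_left_inj.1 (congrFun (toLex.injective (o.injective c)) j))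
    rw [Ne, Fin.ext_iff] at this
    beta_reduce
    omega
  obtain ⟨j, j1, j2⟩ := fd f g h1
  obtain ⟨l, l1, l2⟩ := fd g h h2
  have h4 : ∀ i, (g j ≠ s i j ↔ h l ≠ s i l) := fun i => by
    have e : ∀ a b, a < b ↔ (o a : ℕ) < o b := fun a b => o.lt_iff_lt.symm
    rw [← j2, ← l2, e, e]
    have := h3 i
    beta_reduce at this
    omega
  have h5 : g j = h l := by simpa [s, Bool.coe_iff_coe] using h4 0
  have h6 : j = l := e.injective (funext fun i => by
    have := h4 i.succ
    simp only [s, Fin.cases_succ, h5] at this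
    exact (by decide : ∀ a b c : Bool, (a ≠ b ↔ a ≠ c) → b = c) _ _ _ this)
  exact l1 (h6 ▸ h5)

theorem result (k : ℕ) (hk : 1 ≤ k) :
    IsGreatest {n | ∃ S : Finset (Fin k → ℤ), Mobile S ∧ S.card = n} (2 ^ 2 ^ (k - 1)) := by
  classical
  obtain ⟨k, rfl⟩ := Nat.exists_eq_add_of_le' hk
  refine ⟨?_, by rintro _ ⟨S, hS, rfl⟩; exact upper hS.1⟩
  obtain ⟨F, _, p, hc, p1, p2⟩ := pts k
  let ok : (F → Fin (k + 1) → ℤ) → Prop := fun w => ∀ f g i, w f i - w g i ≤ 1
  let cf : (F → Fin (k + 1) → ℤ) → Finset (Fin (k + 1) → ℤ) := fun w => univ.image (p + w)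
  have ne : ∀ w, ok w → ∀ f g, f ≠ g → ∀ i, (p f i < p g i ∧ (p + w) f i < (p + w) g i) ∨
      (p g i < p f i ∧ (p + w) g i < (p + w) f i) := fun w hw f g h i => by
    have := p1 f g i h
    have := hw f g i
    have := hw g f i
    simp only [Pi.add_apply]
    omega
  have inj : ∀ w, ok w → Function.Injective (p + w) := fun w hw f g h => by
    by_contra c
    simpa [h, lt_irrefl] using ne w hw f g c 0
  have gp : ∀ w, ok w → GP (cf w) := fun w hw => by
    simp only [GP, cf, mem_image, mem_univ, true_and]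
    rintro _ ⟨f, rfl⟩ _ ⟨g, rfl⟩ _ ⟨h, rfl⟩ h1 h2 - h3
    refine p2 f g h (by rintro rfl; exact h1 rfl) (by rintro rfl; exact h2 rfl) fun i => ?_
    have := (btw _ _ _).1 h3 i
    have := ne w hw f g (by rintro rfl; exact h1 rfl) i
    have := ne w hw g h (by rintro rfl; exact h2 rfl) i
    omega
  have sh : ∀ (t : Fin (k + 1) → ℤ) i (s : ℤ), |s| = 1 → ∀ T : Finset F, T.Nonempty →
      TransGen Move (cf fun _ => t) (cf fun f => if f ∈ T then t + Pi.single i s else t) :=
    fun t i s hs T hT => by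
      have o : ∀ T : Finset F, ok fun f => if f ∈ T then t + Pi.single i s else t :=
        fun T f g j => by
          have := abs_le.1 hs.le
          beta_reduce
          by_cases c : j = i <;> split_ifs <;> simp [c] <;> omega
      have mv : ∀ (T : Finset F) f, f ∉ T → Move (cf fun f => if f ∈ T then t + Pi.single i s else t)
          (cf fun g => if g ∈ insert f T then t + Pi.single i s else t) := fun T f hf => by
        refine ⟨p f + t, mem_image.2 ⟨f, mem_univ _, by simp [hf]⟩, p f + (t + Pi.single i s),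
          fun h => ?_, ?_, ?_, gp _ (o _)⟩
        · obtain ⟨g, -, hg⟩ := mem_image.1 h
          rcases eq_or_ne g f with rfl | c
          · have := congrFun hg i
            simp [hf] at this
            simp [this] at hs
          · exact c (inj _ (o (insert f T)) (by simpa [c] using hg))
        · rw [d, sum_eq_single i (fun j _ hj => by simp [hj]) (by simp)]
          simpa using hs
        · ext v
          simp only [cf, mem_insert (a := v), mem_erase, mem_image, mem_univ, true_and]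
          constructor
          · rintro ⟨g, rfl⟩
            rcases eq_or_ne g f with rfl | c
            · simp
            · exact .inr ⟨fun h => c (inj _ (o T) (by simpa [c, hf] using h)), g, by simp [c]⟩
          · rintro (rfl | ⟨h, g, rfl⟩)
            · exact ⟨f, by simp⟩
            · exact ⟨g, by simp [show g ≠ f by rintro rfl; simp [hf] at h]⟩
      induction hT using Finset.Nonempty.cons_induction with
      | singleton f => simpa using TransGen.single (mv ∅ f (by simp))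
      | cons f T hf _ ih => exact ih.tail (by simpa using mv T f hf)
  have : Nonempty F := Fintype.card_pos_iff.1 (hc ▸ by positivity)
  have one : ∀ (t : Fin (k + 1) → ℤ) i (s : ℤ), |s| = 1 →
      TransGen Move (cf fun _ => t) (cf fun _ => t + Pi.single i s) := fun t i s hs => by
    simpa using sh t i s hs univ univ_nonempty
  let Q : (Fin (k + 1) → ℤ) → Prop := fun u => ∀ t, TransGen Move (cf fun _ => t) (cf fun _ => t + u)
  have qa : ∀ u v, Q u → Q v → Q (u + v) := fun u v hu hv t => by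
    rw [← add_assoc]
    exact (hu t).trans (hv _)
  have q0 : Q 0 := by
    simpa [← Pi.single_add] using qa _ _ (one · 0 1 rfl) (one · 0 (-1) rfl)
  have tr : ∀ u, Q u := fun u => Pi.single_induction Q u q0 qa fun i s => by
    induction s using Int.induction_on with
    | zero => simpa using q0
    | succ n ih => simpa only [Pi.single_add] using qa _ _ ih (one · i 1 rfl)
    | pred n ih => simpa only [sub_eq_add_neg, Pi.single_add] using qa _ _ ih (one · i (-1) rfl)
  have o0 : ∀ t, ok fun _ => t := fun t f g i => by simp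
  refine ⟨cf fun _ => 0, ⟨gp _ (o0 0), tour Move (· ∈ ·) (fun S => ∃ t, S = cf fun _ => t) ?_
    ⟨0, rfl⟩⟩, by rw [card_image_of_injective _ (inj _ (o0 0)), card_univ, hc]; rfl⟩
  rintro _ ⟨t, rfl⟩ v
  obtain ⟨f⟩ := this
  exact ⟨_, ⟨_, rfl⟩, tr (v - p f - t) t, mem_image.2 ⟨f, mem_univ _, by simp⟩⟩

end Pool.Agent.Results.MP_903b9e_co.Mob
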